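import Mathlib

/-!
# Orthogonal pairs of `h`-homogeneous latin squares

For every natural number `h` there are two orthogonal latin squares of the same order which are
both `h`-homogeneous.
-/

set_option autoImplicit false

open Finset

namespace Pool.Agent.Results.MP_510a26_co.AllHomogeneous

/-- `L` is a latin square: in each row and in each column all entries are distinct. -/
def IsLatin {X : Type*} (L : X → X → X) : Prop :=
  (∀ r, Function.Injective (L r)) ∧ ∀ c, Function.Injective fun r => L r c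

/-- `L` and `M` are orthogonal: the pairs `(L r c, M r c)` are pairwise distinct. -/
def AreOrthogonal {X : Type*} (L M : X → X → X) : Prop :=
  Function.Injective fun q : X × X => (L q.1 q.2, M q.1 q.2)

/-- `S` is (the set of cells of) an intercalate of `L`. -/
def IsIntercalate {X : Type*} (L : X → X → X) (S : Set (X × X)) : Prop :=
  ∃ r r' c c' : X, r ≠ r' ∧ c ≠ c' ∧ L r c = L r' c' ∧ L r c' = L r' c ∧
    S = {(r, c), (r, c'), (r', c), (r', c')}

/-- `L` is `h`-homogeneous: each cell belongs to exactly `h` intercalates. -/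
def IsHomogeneous {X : Type*} (h : ℕ) (L : X → X → X) : Prop :=
  ∀ r c : X, {S : Set (X × X) | IsIntercalate L S ∧ (r, c) ∈ S}.encard = h

/-- The set of all `h` such that for some order `n ≥ 1` there are two orthogonal latin squares of
order `n` that are both `h`-homogeneous. -/
def H : Set ℕ :=
  {h | ∃ n : ℕ, 1 ≤ n ∧ ∃ L M : Fin n → Fin n → Fin n,
    IsLatin L ∧ IsLatin M ∧ AreOrthogonal L M ∧ IsHomogeneous h L ∧ IsHomogeneous h M}

section general

variable {X : Type*}

/-- The partner cells of `(r, c)`. -/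
def partners (L : X → X → X) (r c : X) : Set (X × X) :=
  {q | q.1 ≠ r ∧ q.2 ≠ c ∧ L r c = L q.1 q.2 ∧ L r q.2 = L q.1 c}

lemma intercalates_eq (L : X → X → X) (r c : X) :
    {S : Set (X × X) | IsIntercalate L S ∧ (r, c) ∈ S} =
      (fun q : X × X => ({(r, c), (r, q.2), (q.1, c), (q.1, q.2)} : Set (X × X))) ''
        partners L r c := by
  ext S
  constructor
  · rintro ⟨⟨a, a', b, b', ha, hb, h1, h2, rfl⟩, hmem⟩
    simp only [Set.mem_insert_iff, Set.mem_singleton_iff, Prod.mk.injEq] at hmem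
    rcases hmem with ⟨rfl, rfl⟩ | ⟨rfl, rfl⟩ | ⟨rfl, rfl⟩ | ⟨rfl, rfl⟩
    · exact ⟨(a', b'), ⟨ha.symm, hb.symm, h1, h2⟩, rfl⟩
    · refine ⟨(a', b), ⟨ha.symm, hb, h2, h1⟩, ?_⟩
      ext q
      simp only [Set.mem_insert_iff, Set.mem_singleton_iff]
      tauto
    · refine ⟨(a, b'), ⟨ha, hb.symm, h2.symm, h1.symm⟩, ?_⟩
      ext q
      simp only [Set.mem_insert_iff, Set.mem_singleton_iff]
      tauto
    · refine ⟨(a, b), ⟨ha, hb, h1.symm, h2.symm⟩, ?_⟩
      ext q
      simp only [Set.mem_insert_iff, Set.mem_singleton_iff]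
      tauto
  · rintro ⟨q, ⟨h1, h2, h3, h4⟩, rfl⟩
    exact ⟨⟨r, q.1, c, q.2, h1.symm, h2.symm, h3, h4, rfl⟩, by simp⟩

lemma homogeneous_of_partners (L : X → X → X) (h : ℕ)
    (hp : ∀ r c, (partners L r c).encard = h) : IsHomogeneous h L := by
  intro r c
  rw [intercalates_eq, Set.InjOn.encard_image, hp]
  rintro ⟨a, b⟩ ⟨h1, h2, -, -⟩ ⟨a', b'⟩ ⟨h1', h2', -, -⟩ heq
  simp only at heq h1 h2 h1' h2'
  have : (a, b) ∈ ({(r, c), (r, b'), (a', c), (a', b')} : Set (X × X)) := by
    rw [← heq]; simp
  simp only [Set.mem_insert_iff, Set.mem_singleton_iff, Prod.mk.injEq] at this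
  rcases this with ⟨h, -⟩ | ⟨h, -⟩ | ⟨-, h⟩ | ⟨h, h'⟩
  · exact absurd h h1
  · exact absurd h h1
  · exact absurd h h2
  · rw [h, h']

/-- Transport of a square along an equivalence. -/
def transport {Y : Type*} (e : X ≃ Y) (L : X → X → X) : Y → Y → Y :=
  fun r c => e (L (e.symm r) (e.symm c))

lemma transport_latin {Y : Type*} (e : X ≃ Y) (L : X → X → X) (h : IsLatin L) :
    IsLatin (transport e L) := by
  refine ⟨fun r => ?_, fun c => ?_⟩
  · intro a b hab
    exact e.symm.injective (h.1 _ (e.injective hab))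
  · intro a b hab
    exact e.symm.injective (h.2 _ (e.injective hab))

lemma transport_orthogonal {Y : Type*} (e : X ≃ Y) (L M : X → X → X) (h : AreOrthogonal L M) :
    AreOrthogonal (transport e L) (transport e M) := by
  rintro ⟨a, b⟩ ⟨a', b'⟩ hab
  simp only [transport, Prod.mk.injEq, EmbeddingLike.apply_eq_iff_eq] at hab
  have := @h (e.symm a, e.symm b) (e.symm a', e.symm b') (by simpa using hab)
  simpa using this

lemma transport_partners {Y : Type*} (e : X ≃ Y) (L : X → X → X) (r c : Y) :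
    (partners (transport e L) r c).encard = (partners L (e.symm r) (e.symm c)).encard := by
  have : partners (transport e L) r c =
      (e.prodCongr e) '' partners L (e.symm r) (e.symm c) := by
    ext ⟨a, b⟩
    constructor
    · rintro ⟨h1, h2, h3, h4⟩
      refine ⟨(e.symm a, e.symm b), ⟨?_, ?_, ?_, ?_⟩, by simp⟩
      · simpa using h1
      · simpa using h2
      · exact e.injective h3
      · exact e.injective h4
    · rintro ⟨⟨a', b'⟩, ⟨h1, h2, h3, h4⟩, heq⟩
      simp only [Equiv.prodCongr_apply, Prod.map_apply, Prod.mk.injEq] at heq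
      obtain ⟨rfl, rfl⟩ := heq
      simp only at h1 h2 h3 h4
      refine ⟨?_, ?_, ?_, ?_⟩
      · simp only
        intro h
        apply h1
        rw [← h]; simp
      · simp only
        intro h
        apply h2
        rw [← h]; simp
      · simp only [transport, Equiv.symm_apply_apply]
        rw [h3]
      · simp only [transport, Equiv.symm_apply_apply]
        rw [h4]
  rw [this, Set.InjOn.encard_image]
  exact (e.prodCongr e).injective.injOn

end general

section construction

variable {F K I : Type*} [Field F] [CharP F 2] [Field K]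

/-- The basic square. -/
def sq (ω : F) (β : I → F → K) (γ : I → F → F → K) (x y : F × (I → K)) : F × (I → K) :=
  (ω * x.1 + y.1, fun e => x.2 e + β e (ω * x.1) * y.2 e + γ e (ω * x.1) y.1)

lemma sq_latin (ω : F) (hω : ω ≠ 0) (β : I → F → K) (γ : I → F → F → K)
    (hβ : ∀ e i, β e i ≠ 0) : IsLatin (sq ω β γ) := by
  constructor
  · rintro ⟨i, a⟩ ⟨j, b⟩ ⟨j', b'⟩ h
    simp only [sq, Prod.mk.injEq] at h
    obtain ⟨h1, h2⟩ := h
    have hj : j = j' := add_left_cancel h1
    subst hj
    refine Prod.ext rfl (funext fun e => ?_)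
    have h3 := congrFun h2 e
    have h4 := add_left_cancel (add_right_cancel h3)
    exact mul_left_cancel₀ (hβ e _) h4
  · rintro ⟨j, b⟩ ⟨i, a⟩ ⟨i', a'⟩ h
    simp only [sq, Prod.mk.injEq] at h
    obtain ⟨h1, h2⟩ := h
    have hi : i = i' := mul_left_cancel₀ hω (add_right_cancel h1)
    subst hi
    refine Prod.ext rfl (funext fun e => ?_)
    have h3 := congrFun h2 e
    exact add_right_cancel (add_right_cancel h3)

lemma sq_orthogonal (ω : F) (hω : ω ≠ 1) (β : I → F → K) (γ : I → F → F → K) (lam : K)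
    (hβ : ∀ e i, lam * β e (ω * i) ≠ β e i) :
    AreOrthogonal (sq 1 β γ) (sq ω (fun e i => lam * β e i) γ) := by
  rintro ⟨⟨i, a⟩, ⟨j, b⟩⟩ ⟨⟨i', a'⟩, ⟨j', b'⟩⟩ h
  simp only [sq, Prod.mk.injEq, one_mul] at h
  obtain ⟨⟨h1, h2⟩, h3, h4⟩ := h
  have hii : i = i' := by
    have : (ω - 1) * i = (ω - 1) * i' := by linear_combination h3 - h1
    exact mul_left_cancel₀ (sub_ne_zero.2 hω) this
  subst hii
  have hjj : j = j' := add_left_cancel h1
  subst hjj
  have hb : b = b' := by
    funext e
    have e2 := congrFun h2 e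
    have e4 := congrFun h4 e
    have : (lam * β e (ω * i) - β e i) * b e = (lam * β e (ω * i) - β e i) * b' e := by
      linear_combination e4 - e2
    exact mul_left_cancel₀ (sub_ne_zero.2 (hβ e i)) this
  subst hb
  have ha : a = a' := by
    funext e
    have e2 := congrFun h2 e
    exact add_right_cancel (add_right_cancel e2)
  rw [ha]

/-- The discrepancy of `γ`. -/
def disc (γ : I → F → F → K) (e : I) (i j δ : F) : K :=
  γ e (i + δ) (j + δ) - γ e (i + δ) j - γ e i j + γ e i (j + δ)

/-- second coordinate of the partner column -/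
def Bcol (β : I → F → K) (γ : I → F → F → K) (i j : F) (b : I → K) (δ : F) : I → K :=
  fun e => b e - disc γ e i j δ / (β e i + β e (i + δ))

/-- second coordinate of the partner row -/
def Arow (β : I → F → K) (γ : I → F → F → K) (i j : F) (a b : I → K) (δ : F) : I → K :=
  fun e => a e + β e i * b e + γ e i j - β e (i + δ) * Bcol β γ i j b δ e - γ e (i + δ) (j + δ)

lemma sq_partners (hK : (2 : K) ≠ 0) (ω : F) (hω : ω ≠ 0) (β : I → F → K) (γ : I → F → F → K)
    (d : I → F)
    (hβ : ∀ e i, β e i ≠ 0) (hb1 : ∀ e i, β e (i + d e) = - β e i)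
    (hb2 : ∀ e i δ, δ ≠ 0 → δ ≠ d e → β e i + β e (i + δ) ≠ 0)
    (hg : ∀ e i j, disc γ e i j (d e) ≠ 0) (x y : F × (I → K)) :
    partners (sq ω β γ) x y =
      (fun δ : F => (((x.1 + ω⁻¹ * δ, Arow β γ (ω * x.1) y.1 x.2 y.2 δ),
        (y.1 + δ, Bcol β γ (ω * x.1) y.1 y.2 δ)) : (F × (I → K)) × (F × (I → K)))) ''
        {δ | δ ≠ 0 ∧ ∀ e, δ ≠ d e} := by
  obtain ⟨i, a⟩ := x
  obtain ⟨j, b⟩ := y
  have hωδ : ∀ δ : F, ω * (i + ω⁻¹ * δ) = ω * i + δ := by
    intro δ
    field_simp
  ext ⟨⟨i', a'⟩, ⟨j', b'⟩⟩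
  constructor
  · rintro ⟨h1, h2, h3, h4⟩
    simp only [sq, Prod.mk.injEq] at h1 h2 h3 h4
    obtain ⟨h3, h3'⟩ := h3
    obtain ⟨h4, h4'⟩ := h4
    -- the difference
    obtain ⟨δ, hδ⟩ : ∃ δ, δ = j + j' := ⟨_, rfl⟩
    have hj' : j' = j + δ := by
      rw [hδ, ← add_assoc, CharTwo.add_self_eq_zero, zero_add]
    have hi' : i' = i + ω⁻¹ * δ := by
      have : ω * i' = ω * i + δ := by
        rw [hδ, ← add_assoc, h3, add_assoc, CharTwo.add_self_eq_zero, add_zero]
      have h5 : i' = ω⁻¹ * (ω * i + δ) := by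
        rw [← this, ← mul_assoc, inv_mul_cancel₀ hω, one_mul]
      rw [h5, mul_add, ← mul_assoc, inv_mul_cancel₀ hω, one_mul]
    clear hδ
    subst hj' hi'
    rw [hωδ] at h3' h4'
    have hA : ∀ e, a e + β e (ω * i) * b e + γ e (ω * i) j =
        a' e + β e (ω * i + δ) * b' e + γ e (ω * i + δ) (j + δ) := fun e => congrFun h3' e
    have hB : ∀ e, a e + β e (ω * i) * b' e + γ e (ω * i) (j + δ) =
        a' e + β e (ω * i + δ) * b e + γ e (ω * i + δ) j := fun e => congrFun h4' e
    have hsub : ∀ e, (β e (ω * i) + β e (ω * i + δ)) * (b e - b' e) =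
        disc γ e (ω * i) j δ := by
      intro e
      unfold disc
      linear_combination hA e - hB e
    have hδ0 : δ ≠ 0 := by
      rintro rfl
      apply h2
      refine Prod.ext (by simp) (funext fun e => ?_)
      have h5 := hsub e
      simp only [add_zero, disc] at h5
      have h6 : (2 * β e (ω * i)) * (b e - b' e) = 0 := by linear_combination h5
      have h7 := (mul_eq_zero.1 h6).resolve_left (mul_ne_zero hK (hβ e _))
      exact (sub_eq_zero.1 h7).symm
    have hδe : ∀ e, δ ≠ d e := by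
      intro e he
      have h5 := hsub e
      rw [he, hb1, add_neg_cancel, zero_mul] at h5
      exact hg e _ _ h5.symm
    refine ⟨δ, ⟨hδ0, hδe⟩, ?_⟩
    have hb' : b' = Bcol β γ (ω * i) j b δ := by
      funext e
      unfold Bcol
      have h5 := hb2 e (ω * i) δ hδ0 (hδe e)
      have h6 := hsub e
      rw [← h6, mul_div_cancel_left₀ _ h5]
      ring
    have ha' : a' = Arow β γ (ω * i) j a b δ := by
      funext e
      unfold Arow
      rw [← hb']
      linear_combination -(hA e)
    simp only [← hb', ← ha']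
  · rintro ⟨δ, ⟨hδ0, hδe⟩, heq⟩
    simp only [Prod.mk.injEq] at heq
    obtain ⟨⟨rfl, rfl⟩, rfl, rfl⟩ := heq
    refine ⟨?_, ?_, ?_, ?_⟩
    · simp only [ne_eq, Prod.mk.injEq, add_eq_left, mul_eq_zero, inv_eq_zero, hω, hδ0, or_self,
        false_and, not_false_eq_true]
    · simp only [ne_eq, Prod.mk.injEq, add_eq_left, hδ0, false_and, not_false_eq_true]
    · refine Prod.ext ?_ (funext fun e => ?_)
      · simp only [sq]
        rw [hωδ]
        have : ω * i + δ + (j + δ) = ω * i + j + (δ + δ) := by ring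
        rw [this, CharTwo.add_self_eq_zero, add_zero]
      · simp only [sq]
        rw [hωδ]
        unfold Arow
        ring
    · refine Prod.ext ?_ (funext fun e => ?_)
      · simp only [sq]
        rw [hωδ]
        ring
      · simp only [sq]
        rw [hωδ]
        have h5 := hb2 e (ω * i) δ hδ0 (hδe e)
        have h6 : (β e (ω * i) + β e (ω * i + δ)) * (b e - Bcol β γ (ω * i) j b δ e) =
            disc γ e (ω * i) j δ := by
          unfold Bcol
          field_simp
          ring
        unfold Arow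
        unfold disc at h6
        linear_combination -h6

end construction

section numbers

lemma two_pow_aux (a b c d : ℕ) (hb : a < b) (hc : a < c) (hd : a < d) :
    (2 : ℤ) ^ a + 2 ^ b - 2 ^ c - 2 ^ d ≠ 0 := by
  obtain ⟨b', rfl⟩ := Nat.exists_eq_add_of_lt hb
  obtain ⟨c', rfl⟩ := Nat.exists_eq_add_of_lt hc
  obtain ⟨d', rfl⟩ := Nat.exists_eq_add_of_lt hd
  intro h
  have h1 : (2 : ℤ) ^ a * (1 + 2 * (2 ^ b' - 2 ^ c' - 2 ^ d')) = 0 := by
    rw [← h]; ring
  have h2 : (2 : ℤ) ^ a ≠ 0 := by positivity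
  have h3 := (mul_eq_zero.1 h1).resolve_left h2
  omega

lemma two_pow_ne (a b c d : ℕ) (hab : a ≠ b) (hac : a ≠ c) (had : a ≠ d) (hbc : b ≠ c)
    (hbd : b ≠ d) (hcd : c ≠ d) : (2 : ℤ) ^ a + 2 ^ b - 2 ^ c - 2 ^ d ≠ 0 := by
  intro h
  have : (a < b ∧ a < c ∧ a < d) ∨ (b < a ∧ b < c ∧ b < d) ∨ (c < a ∧ c < b ∧ c < d) ∨
      (d < a ∧ d < b ∧ d < c) := by omega
  rcases this with ⟨h1, h2, h3⟩ | ⟨h1, h2, h3⟩ | ⟨h1, h2, h3⟩ | ⟨h1, h2, h3⟩
  · exact two_pow_aux a b c d h1 h2 h3 h
  · exact two_pow_aux b a c d h1 h2 h3 (by linarith)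
  · exact two_pow_aux c d a b h3 h1 h2 (by linarith)
  · exact two_pow_aux d c a b h3 h1 h2 (by linarith)

/-- A prime modulo which finitely many given nonzero integers stay nonzero. -/
lemma exists_prime_ne (S : Finset ℤ) :
    ∃ p : ℕ, p.Prime ∧ ∀ z ∈ S, z ≠ 0 → (z : ZMod p) ≠ 0 := by
  obtain ⟨p, hp, hprime⟩ := Nat.exists_infinite_primes ((S.sup Int.natAbs) + 1)
  refine ⟨p, hprime, fun z hz hz0 h => ?_⟩
  rw [ZMod.intCast_zmod_eq_zero_iff_dvd] at h
  have h1 : p ∣ z.natAbs := Int.natCast_dvd.1 h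
  have h2 : p ≤ z.natAbs := Nat.le_of_dvd (Int.natAbs_pos.2 hz0) h1
  have h3 : z.natAbs ≤ S.sup Int.natAbs := le_sup (f := Int.natAbs) hz
  omega

end numbers

lemma mem_H_aux {F : Type} [Field F] [CharP F 2] [Fintype F] [DecidableEq F] (h : ℕ)
    (hh : h + 3 ≤ Fintype.card F) : h ∈ H := by
  classical
  -- the killed differences
  obtain ⟨E, hEsub, hEcard⟩ := exists_subset_card_eq (s := univ.erase (0 : F))
    (n := Fintype.card F - 1 - h) (by
      rw [card_erase_of_mem (mem_univ _), card_univ]; omega)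
  have hE0 : ∀ e ∈ E, e ≠ 0 := fun e he => by simpa using hEsub he
  -- the integer weights
  let r : F → ℕ := fun x => (Fintype.equivFin F x).val
  have hr : Function.Injective r := fun x y hxy =>
    (Fintype.equivFin F).injective (Fin.ext hxy)
  have hrlt : ∀ x, r x < Fintype.card F := fun x => (Fintype.equivFin F x).isLt
  let κ : F → ℤ := fun x => 2 ^ r x
  have hκpos : ∀ x, 0 < κ x := fun x => by positivity
  have hκlt : ∀ x, κ x < 2 ^ (Fintype.card F) := fun x =>
    pow_lt_pow_right₀ (by norm_num) (hrlt x)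
  have hκinj : ∀ x y, x ≠ y → κ x - κ y ≠ 0 := by
    intro x y hxy h
    apply hxy
    apply hr
    have h1 : (2 : ℤ) ^ r x = 2 ^ r y := sub_eq_zero.1 h
    have h2 : 2 ^ r x = 2 ^ r y := by exact_mod_cast h1
    exact Nat.pow_right_injective (le_refl 2) h2
  let b : F → F → ℤ := fun e i => κ i - κ (i + e)
  have hb0 : ∀ e i, e ≠ 0 → b e i ≠ 0 := by
    intro e i he
    apply hκinj
    intro h
    exact he (by simpa using h.symm)
  have hb1 : ∀ e i, b e (i + e) = - b e i := by
    intro e i
    simp only [b]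
    rw [add_assoc, CharTwo.add_self_eq_zero, add_zero]; ring
  have hb2 : ∀ e i δ, e ≠ 0 → δ ≠ 0 → δ ≠ e → b e i + b e (i + δ) ≠ 0 := by
    intro e i δ he hδ hδe
    have hne : ∀ x y : F, x ≠ y → r x ≠ r y := fun x y hxy h => hxy (hr h)
    have n1 : i ≠ i + δ := by
      intro h; exact hδ (by simpa using h.symm)
    have n2 : i ≠ i + e := by
      intro h; exact he (by simpa using h.symm)
    have n3 : i ≠ i + δ + e := by
      intro h
      rw [add_assoc, left_eq_add, CharTwo.add_eq_zero] at h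
      exact hδe h
    have n4 : i + δ ≠ i + e := by
      intro h; exact hδe (add_left_cancel h)
    have n5 : i + δ ≠ i + δ + e := by
      intro h; exact he (by simpa using h.symm)
    have n6 : i + e ≠ i + δ + e := by
      intro h
      have h1 : i + δ + e = (i + e) + δ := by ring
      rw [h1] at h
      exact hδ (by simpa using h.symm)
    have := two_pow_ne (r i) (r (i + δ)) (r (i + e)) (r (i + δ + e))
      (hne _ _ n1) (hne _ _ n2) (hne _ _ n3) (hne _ _ n4) (hne _ _ n5) (hne _ _ n6)
    intro h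
    apply this
    simp only [b, κ] at h
    linarith
  let lam : ℤ := 2 ^ (Fintype.card F)
  have hlam0 : lam ≠ 0 := by positivity
  have hblt : ∀ e i, |b e i| < lam := by
    intro e i
    rw [abs_lt]
    have h1 := hκpos i
    have h2 := hκpos (i + e)
    have h3 := hκlt i
    have h4 := hκlt (i + e)
    constructor <;> simp only [b, lam] <;> linarith
  have hlam : ∀ e i i', e ≠ 0 → lam * b e i - b e i' ≠ 0 := by
    intro e i i' he h
    have h1 : |lam * b e i| = |b e i'| := by rw [sub_eq_zero.1 h]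
    rw [abs_mul] at h1
    have h2 : 1 ≤ |b e i| := Int.one_le_abs (hb0 e i he)
    have h3 := hblt e i'
    have h4 : lam ≤ |lam| := le_abs_self _
    have h5 : 0 < lam := by positivity
    nlinarith
  -- the prime
  let S : Finset ℤ := {2, lam} ∪ (univ.image fun t : F × F => b t.1 t.2) ∪
    (univ.image fun t : F × F × F => b t.1 t.2.1 + b t.1 (t.2.1 + t.2.2)) ∪
    (univ.image fun t : F × F × F => lam * b t.1 t.2.1 - b t.1 t.2.2)
  obtain ⟨p, hp, hpS⟩ := exists_prime_ne S
  have : Fact p.Prime := ⟨hp⟩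
  let K := ZMod p
  have k2 : (2 : K) ≠ 0 := by
    have := hpS 2 (by simp [S]) (by norm_num)
    exact_mod_cast this
  have klam : (lam : K) ≠ 0 := hpS lam (by simp [S]) hlam0
  have kb0 : ∀ e i, e ≠ 0 → (b e i : K) ≠ 0 := by
    intro e i he
    refine hpS _ ?_ (hb0 e i he)
    simp only [S, mem_union, mem_image, mem_univ, true_and]
    exact Or.inl (Or.inl (Or.inr ⟨(e, i), rfl⟩))
  have kb2 : ∀ e i δ, e ≠ 0 → δ ≠ 0 → δ ≠ e → (b e i : K) + (b e (i + δ) : K) ≠ 0 := by
    intro e i δ he hδ hδe
    have := hpS (b e i + b e (i + δ)) (by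
      simp only [S, mem_union, mem_image, mem_univ, true_and]
      exact Or.inl (Or.inr ⟨(e, i, δ), rfl⟩)) (hb2 e i δ he hδ hδe)
    exact_mod_cast this
  have kblam : ∀ e i i', e ≠ 0 → (lam : K) * (b e i : K) - (b e i' : K) ≠ 0 := by
    intro e i i' he
    have := hpS (lam * b e i - b e i') (by
      simp only [S, mem_union, mem_image, mem_univ, true_and]
      exact Or.inr ⟨(e, i, i'), rfl⟩) (hlam e i i' he)
    exact_mod_cast this
  -- the scalar `ω`
  obtain ⟨ω, hω⟩ : ∃ ω : F, ω ∉ ({0, 1} : Finset F) := by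
    by_contra hcon
    push Not at hcon
    have h1 : (univ : Finset F) ⊆ {0, 1} := fun x _ => hcon x
    have h2 := card_le_card h1
    rw [card_univ] at h2
    have := h2.trans card_le_two
    omega
  simp only [mem_insert, mem_singleton, not_or] at hω
  obtain ⟨hω0, hω1⟩ := hω
  -- the data
  let I := {e : F // e ∈ E}
  have hI0 : ∀ e : I, (e : F) ≠ 0 := fun e => hE0 e e.2
  let d : I → F := fun e => e
  let β : I → F → K := fun e i => (b e i : K)
  let τ : I → F → K := fun e i => if r i < r (i + e) then 1 else 0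
  let γ : I → F → F → K := fun e i j => τ e i * τ e j
  have hτ : ∀ e i, τ e (i + d e) = 1 - τ e i := by
    intro e i
    have h1 : i + (e : F) + e = i := by
      rw [add_assoc, CharTwo.add_self_eq_zero, add_zero]
    have h2 : r i ≠ r (i + e) := by
      intro h
      have := hr h
      exact hI0 e (by simpa using this.symm)
    simp only [τ, d, h1]
    rcases lt_or_gt_of_ne h2 with h3 | h3
    · rw [if_neg (not_lt.2 h3.le), if_pos h3, sub_self]
    · rw [if_pos h3, if_neg (not_lt.2 h3.le), sub_zero]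
  have hτ01 : ∀ e i, τ e i = 0 ∨ τ e i = 1 := by
    intro e i
    simp only [τ]
    split_ifs <;> simp
  have hg : ∀ e i j, disc γ e i j (d e) ≠ 0 := by
    intro e i j
    simp only [disc, γ, hτ]
    rcases hτ01 e j with h1 | h1 <;> rw [h1]
    · intro h
      exact one_ne_zero (α := K) (by linear_combination h)
    · intro h
      exact one_ne_zero (α := K) (by linear_combination -h)
  have hcardD : ({δ : F | δ ≠ 0 ∧ ∀ e, δ ≠ d e} : Set F).encard = h := by
    have hset : ({δ : F | δ ≠ 0 ∧ ∀ e, δ ≠ d e} : Set F) =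
        ((univ.erase 0 \ E : Finset F) : Set F) := by
      ext δ
      rw [mem_coe, mem_sdiff, mem_erase]
      constructor
      · rintro ⟨h0, h1⟩
        exact ⟨⟨h0, mem_univ _⟩, fun h2 => h1 ⟨δ, h2⟩ rfl⟩
      · rintro ⟨⟨h0, -⟩, h1⟩
        refine ⟨h0, fun e he => ?_⟩
        rw [he] at h1
        exact h1 e.2
    rw [hset, Set.encard_coe_eq_coe_finsetCard, card_sdiff_of_subset hEsub, hEcard,
      card_erase_of_mem (mem_univ _), card_univ]
    congr 1
    omega
  -- transport to `Fin n`
  let X := F × (I → K)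
  have hL1 : sq (1 : F) β γ = sq (1 : F) (fun e i => (1 : K) * β e i) γ := by simp
  let e := Fintype.equivFin X
  have htrans : ∀ L : X → X → X, (∀ x y, (partners L x y).encard = h) →
      IsHomogeneous h (transport e L) := by
    intro L hL
    apply homogeneous_of_partners
    intro x y
    rw [transport_partners, hL]
  have hpart : ∀ (ω' : F) (hω' : ω' ≠ 0) (c : K) (hc : c ≠ 0) (x y : X),
      (partners (sq ω' (fun e i => c * β e i) γ) x y).encard = h := by
    intro ω' hω' c hc x y
    rw [sq_partners k2 ω' hω' (fun e i => c * β e i) γ d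
      (fun e i => mul_ne_zero hc (kb0 e i (hI0 e)))
      (fun e i => by
        simp only [β, d, hb1]
        push_cast
        ring)
      (fun e i δ hδ hδe => by
        rw [← mul_add]
        exact mul_ne_zero hc (kb2 e i δ (hI0 e) hδ hδe))
      hg x y, Set.InjOn.encard_image, hcardD]
    intro δ _ δ' _ heq
    simp only [Prod.mk.injEq] at heq
    exact add_left_cancel heq.2.1
  refine ⟨Fintype.card X, Fintype.card_pos, transport e (sq 1 β γ),
    transport e (sq ω (fun e i => (lam : K) * β e i) γ), ?_, ?_, ?_, ?_, ?_⟩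
  · exact transport_latin _ _ (sq_latin 1 one_ne_zero β γ fun e i => kb0 e i (hI0 e))
  · exact transport_latin _ _ (sq_latin ω hω0 _ γ fun e i =>
      mul_ne_zero klam (kb0 e i (hI0 e)))
  · refine transport_orthogonal _ _ _ (sq_orthogonal ω hω1 β γ lam fun e i => ?_)
    exact sub_ne_zero.1 (kblam e _ i (hI0 e))
  · apply htrans
    rw [hL1]
    exact hpart 1 one_ne_zero 1 one_ne_zero
  · exact htrans _ (hpart ω hω0 lam klam)

lemma mem_H (h : ℕ) : h ∈ H := by
  classical
  have : Fact (Nat.Prime 2) := ⟨Nat.prime_two⟩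
  have hcard : Nat.card (GaloisField 2 (h + 2)) = 2 ^ (h + 2) := GaloisField.card 2 _ (by omega)
  have : Finite (GaloisField 2 (h + 2)) := inferInstance
  let inst : Fintype (GaloisField 2 (h + 2)) := Fintype.ofFinite _
  refine mem_H_aux (F := GaloisField 2 (h + 2)) h ?_
  rw [← Nat.card_eq_fintype_card, hcard, pow_add]
  have : h + 1 ≤ 2 ^ h := Nat.lt_two_pow_self
  omega

/-- `H` is the set of all natural numbers: for every `h ≥ 0` there are an order `n` and two
orthogonal latin squares of order `n` which are both `h`-homogeneous. -/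
theorem result : H = Set.univ :=
  Set.eq_univ_of_forall mem_H

end Pool.Agent.Results.MP_510a26_co.AllHomogeneous
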